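import Mathlib
import Pool.Agent.R722.EBMod

/-!
# A vertex that disappears from the syzygy supports of its simple module
-/

set_option autoImplicit false
set_option linter.style.haveILetI false
set_option linter.unusedSectionVars false

open CategoryTheory

namespace Pool.Agent.Results.MP_eb0abf_al.SyzygySupport

section quiver

variable (k : Type) [Field k] {V A : Type} [Fintype V] (s t : A → V)

/-- The defining relations of the path algebra of the quiver with vertices `V`, arrows `A`, source
map `s` and target map `t`, in the free algebra on vertices and arrows: the vertices are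
orthogonal idempotents with sum one, and `a = a * s(a) = t(a) * a` for every arrow `a`. -/
inductive PRel : FreeAlgebra k (V ⊕ A) → FreeAlgebra k (V ⊕ A) → Prop
  | idem (v : V) : PRel (FreeAlgebra.ι k (Sum.inl v) * FreeAlgebra.ι k (Sum.inl v))
      (FreeAlgebra.ι k (Sum.inl v))
  | orth (v w : V) (h : v ≠ w) :
      PRel (FreeAlgebra.ι k (Sum.inl v) * FreeAlgebra.ι k (Sum.inl w)) 0
  | sum : PRel (∑ v, FreeAlgebra.ι k (Sum.inl v)) 1
  | src (a : A) : PRel (FreeAlgebra.ι k (Sum.inr a) * FreeAlgebra.ι k (Sum.inl (s a)))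
      (FreeAlgebra.ι k (Sum.inr a))
  | tgt (a : A) : PRel (FreeAlgebra.ι k (Sum.inl (t a)) * FreeAlgebra.ι k (Sum.inr a))
      (FreeAlgebra.ι k (Sum.inr a))

/-- The path algebra. -/
abbrev PathAlg : Type := RingQuot (PRel k s t)

/-- The trivial path at a vertex. -/
noncomputable def vx (v : V) : PathAlg k s t :=
  RingQuot.mkAlgHom k (PRel k s t) (FreeAlgebra.ι k (Sum.inl v))

/-- An arrow as an element of the path algebra. -/
noncomputable def ar (a : A) : PathAlg k s t :=
  RingQuot.mkAlgHom k (PRel k s t) (FreeAlgebra.ι k (Sum.inr a))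

/-- The two-sided ideal generated by the arrows. -/
noncomputable def arrowIdeal : Submodule k (PathAlg k s t) :=
  ⊤ * Submodule.span k (Set.range (ar k s t)) * ⊤

/-- Admissibility of (the kernel of) an algebra homomorphism from the path algebra: the kernel
contains a power of the arrow ideal and is contained in its square. -/
def AdmissibleKernel {B : Type} [Ring B] [Algebra k B] (π : PathAlg k s t →ₐ[k] B) : Prop :=
  (∃ m : ℕ, 2 ≤ m ∧ arrowIdeal k s t ^ m ≤ LinearMap.ker π.toLinearMap) ∧
    LinearMap.ker π.toLinearMap ≤ arrowIdeal k s t ^ 2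

/-- The quiver is strongly connected. -/
def StronglyConnected : Prop :=
  ∀ v w : V, Relation.ReflTransGen (fun u u' => ∃ a : A, s a = u ∧ t a = u') v w

end quiver

/-- `N` is a first syzygy of `M`: the kernel of a projective cover `P → M` (a surjection from a
finitely generated projective module with superfluous kernel). -/
def IsSyzygy {R : Type} [Ring R] (M N : ModuleCat.{0} R) : Prop :=
  ∃ (P : ModuleCat.{0} R) (i : N →ₗ[R] P) (p : P →ₗ[R] M), Module.Projective R P ∧
    Module.Finite R P ∧ Function.Injective i ∧ Function.Exact i p ∧ Function.Surjective p ∧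
    ∀ U : Submodule R P, U ⊔ LinearMap.ker p = ⊤ → U = ⊤

section sec

variable (k : Type) [Field k]

/-- The sources of the four arrows. -/
def src : Fin 4 → Fin 3 := ![0, 1, 1, 2]

/-- The targets of the four arrows. -/
def tgt : Fin 4 → Fin 3 := ![1, 1, 2, 0]

open Pool.Agent.R722.EB

/-- The images of the vertices. -/
def vimg : Fin 3 → Lam k := ![ex k, ey k, ez k]

/-- The images of the arrows. -/
def aimg : Fin 4 → Lam k := ![ga k, gb k, gd k, ge k]

/-- The free algebra homomorphism. -/
noncomputable def ff : FreeAlgebra k (Fin 3 ⊕ Fin 4) →ₐ[k] Lam k :=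
  FreeAlgebra.lift k (Sum.elim (vimg k) (aimg k))

theorem ff_inl (v : Fin 3) : ff k (FreeAlgebra.ι k (Sum.inl v)) = vimg k v :=
  FreeAlgebra.lift_ι_apply _ _

theorem ff_inr (a : Fin 4) : ff k (FreeAlgebra.ι k (Sum.inr a)) = aimg k a :=
  FreeAlgebra.lift_ι_apply _ _

theorem ff_rel ⦃u v : FreeAlgebra k (Fin 3 ⊕ Fin 4)⦄ (h : PRel k src tgt u v) :
    ff k u = ff k v := by
  cases h with
  | idem v =>
    rw [map_mul, ff_inl]
    fin_cases v <;> (ext <;> simp [vimg, ex, ey, ez])
  | orth v w h =>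
    rw [map_mul, ff_inl, ff_inl, map_zero]
    fin_cases v <;> fin_cases w <;>
      first
      | exact absurd rfl h
      | (ext <;> simp [vimg, ex, ey, ez])
  | sum =>
    rw [map_sum, map_one, Fin.sum_univ_three, ff_inl, ff_inl, ff_inl]
    ext <;> simp [vimg, ex, ey, ez]
  | src a =>
    rw [map_mul, ff_inl, ff_inr]
    fin_cases a <;> (ext <;> simp [vimg, aimg, src, ex, ey, ez, ga, gb, gd, ge])
  | tgt a =>
    rw [map_mul, ff_inl, ff_inr]
    fin_cases a <;> (ext <;> simp [vimg, aimg, tgt, ex, ey, ez, ga, gb, gd, ge])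

/-- The quotient map from the path algebra. -/
noncomputable def pi : PathAlg k src tgt →ₐ[k] Lam k :=
  RingQuot.liftAlgHom k ⟨ff k, ff_rel k⟩

theorem pi_mk (u : FreeAlgebra k (Fin 3 ⊕ Fin 4)) :
    pi k (RingQuot.mkAlgHom k (PRel k src tgt) u) = ff k u :=
  RingQuot.liftAlgHom_mkAlgHom_apply _ _ _ _

theorem pi_vx (v : Fin 3) : pi k (vx k src tgt v) = vimg k v := by
  rw [vx, pi_mk, ff_inl]

theorem pi_ar (a : Fin 4) : pi k (ar k src tgt a) = aimg k a := by
  rw [ar, pi_mk, ff_inr]

theorem pi_surjective : Function.Surjective (pi k) := by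
  intro u
  refine ⟨u.x • vx k src tgt 0 + u.y • vx k src tgt 1 + u.z • vx k src tgt 2
    + u.a • ar k src tgt 0 + u.b • ar k src tgt 1 + u.d • ar k src tgt 2
    + u.e • ar k src tgt 3 + u.p • (ar k src tgt 2 * ar k src tgt 0)
    + u.q • (ar k src tgt 2 * ar k src tgt 1), ?_⟩
  simp only [map_add, map_smul, map_mul, pi_vx, pi_ar]
  ext <;> simp [vimg, aimg, ex, ey, ez, ga, gb, gd, ge, Lam.smul_eq]

/-- The radical. -/
def J1 : Submodule k (Lam k) where
  carrier := {u | u.x = 0 ∧ u.y = 0 ∧ u.z = 0}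
  zero_mem' := ⟨rfl, rfl, rfl⟩
  add_mem' := by
    rintro u v ⟨h1, h2, h3⟩ ⟨g1, g2, g3⟩
    refine ⟨?_, ?_, ?_⟩ <;> simp [*]
  smul_mem' := by
    rintro c u ⟨h1, h2, h3⟩
    refine ⟨?_, ?_, ?_⟩ <;> simp [Lam.smul_eq, *]

/-- The square of the radical. -/
def J2 : Submodule k (Lam k) where
  carrier := {u | u.x = 0 ∧ u.y = 0 ∧ u.z = 0 ∧ u.a = 0 ∧ u.b = 0 ∧ u.d = 0 ∧ u.e = 0}
  zero_mem' := ⟨rfl, rfl, rfl, rfl, rfl, rfl, rfl⟩
  add_mem' := by
    rintro u v ⟨h1, h2, h3, h4, h5, h6, h7⟩ ⟨g1, g2, g3, g4, g5, g6, g7⟩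
    refine ⟨?_, ?_, ?_, ?_, ?_, ?_, ?_⟩ <;> simp [*]
  smul_mem' := by
    rintro c u ⟨h1, h2, h3, h4, h5, h6, h7⟩
    refine ⟨?_, ?_, ?_, ?_, ?_, ?_, ?_⟩ <;> simp [Lam.smul_eq, *]

theorem arrow_le : arrowIdeal k src tgt ≤ (J1 k).comap (pi k).toLinearMap := by
  have h1 : Submodule.span k (Set.range (ar k src tgt)) ≤ (J1 k).comap (pi k).toLinearMap := by
    rw [Submodule.span_le]
    rintro _ ⟨a, rfl⟩
    show pi k (ar k src tgt a) ∈ J1 k
    rw [pi_ar]
    fin_cases a <;> exact ⟨rfl, rfl, rfl⟩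
  have h2 : (⊤ : Submodule k (PathAlg k src tgt)) * Submodule.span k (Set.range (ar k src tgt))
      ≤ (J1 k).comap (pi k).toLinearMap := by
    rw [Submodule.mul_le]
    intro m _ n hn
    obtain ⟨g1, g2, g3⟩ := h1 hn
    show pi k (m * n) ∈ J1 k
    have g1' : (pi k n).x = 0 := g1
    have g2' : (pi k n).y = 0 := g2
    have g3' : (pi k n).z = 0 := g3
    rw [map_mul]
    refine ⟨?_, ?_, ?_⟩ <;> simp [g1', g2', g3']
  unfold arrowIdeal
  rw [Submodule.mul_le]
  intro m hm n _
  obtain ⟨g1, g2, g3⟩ := h2 hm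
  have g1' : (pi k m).x = 0 := g1
  have g2' : (pi k m).y = 0 := g2
  have g3' : (pi k m).z = 0 := g3
  show pi k (m * n) ∈ J1 k
  rw [map_mul]
  refine ⟨?_, ?_, ?_⟩ <;> simp [g1', g2', g3']

theorem arrow_sq_le : arrowIdeal k src tgt ^ 2 ≤ (J2 k).comap (pi k).toLinearMap := by
  rw [pow_two, Submodule.mul_le]
  intro m hm n hn
  obtain ⟨g1, g2, g3⟩ := arrow_le k hm
  obtain ⟨f1, f2, f3⟩ := arrow_le k hn
  have g1' : (pi k m).x = 0 := g1
  have g2' : (pi k m).y = 0 := g2
  have g3' : (pi k m).z = 0 := g3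
  have f1' : (pi k n).x = 0 := f1
  have f2' : (pi k n).y = 0 := f2
  have f3' : (pi k n).z = 0 := f3
  show pi k (m * n) ∈ J2 k
  rw [map_mul]
  refine ⟨?_, ?_, ?_, ?_, ?_, ?_, ?_⟩ <;> simp [g1', g2', g3', f1', f2', f3']

theorem arrow_cube_le : arrowIdeal k src tgt ^ 3 ≤ LinearMap.ker (pi k).toLinearMap := by
  rw [pow_succ, Submodule.mul_le]
  intro m hm n hn
  obtain ⟨g1, g2, g3, g4, g5, g6, g7⟩ := arrow_sq_le k hm
  obtain ⟨f1, f2, f3⟩ := arrow_le k hn
  have g1' : (pi k m).x = 0 := g1
  have g2' : (pi k m).y = 0 := g2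
  have g3' : (pi k m).z = 0 := g3
  have g4' : (pi k m).a = 0 := g4
  have g5' : (pi k m).b = 0 := g5
  have g6' : (pi k m).d = 0 := g6
  have g7' : (pi k m).e = 0 := g7
  have f1' : (pi k n).x = 0 := f1
  have f2' : (pi k n).y = 0 := f2
  have f3' : (pi k n).z = 0 := f3
  show pi k (m * n) = 0
  rw [map_mul]
  ext <;> simp [g1', g2', g3', g4', g5', g6', g7', f1', f2', f3']

section gen
variable {V A : Type} [Fintype V] [DecidableEq V] (s t : A → V)

theorem vx_idem (v : V) : vx k s t v * vx k s t v = vx k s t v := by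
  have h := RingQuot.mkAlgHom_rel k (PRel.idem (k := k) (s := s) (t := t) v)
  rw [map_mul] at h
  exact h

theorem vx_orth (v w : V) (hvw : v ≠ w) : vx k s t v * vx k s t w = 0 := by
  have h := RingQuot.mkAlgHom_rel k (PRel.orth (k := k) (s := s) (t := t) v w hvw)
  rw [map_mul, map_zero] at h
  exact h

theorem vx_sum : ∑ v, vx k s t v = 1 := by
  have h := RingQuot.mkAlgHom_rel k (PRel.sum (k := k) (s := s) (t := t))
  rw [map_sum, map_one] at h
  exact h

theorem ar_src (a : A) : ar k s t a * vx k s t (s a) = ar k s t a := by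
  have h := RingQuot.mkAlgHom_rel k (PRel.src (k := k) (s := s) (t := t) a)
  rw [map_mul] at h
  exact h

theorem ar_tgt (a : A) : vx k s t (t a) * ar k s t a = ar k s t a := by
  have h := RingQuot.mkAlgHom_rel k (PRel.tgt (k := k) (s := s) (t := t) a)
  rw [map_mul] at h
  exact h

theorem vx_ar (v : V) (a : A) : vx k s t v * ar k s t a ∈ Submodule.span k (Set.range (ar k s t)) := by
  by_cases h : v = t a
  · subst h
    rw [ar_tgt]
    exact Submodule.subset_span ⟨a, rfl⟩
  · rw [← ar_tgt, ← mul_assoc, vx_orth k s t v (t a) h, zero_mul]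
    exact Submodule.zero_mem _

theorem ar_vx (v : V) (a : A) : ar k s t a * vx k s t v ∈ Submodule.span k (Set.range (ar k s t)) := by
  by_cases h : s a = v
  · subst h
    rw [ar_src]
    exact Submodule.subset_span ⟨a, rfl⟩
  · rw [← ar_src, mul_assoc, vx_orth k s t (s a) v h, mul_zero]
    exact Submodule.zero_mem _

theorem ar_mem (a : A) : ar k s t a ∈ arrowIdeal k s t := by
  have h : ar k s t a = 1 * ar k s t a * 1 := by rw [one_mul, mul_one]
  rw [h]
  exact Submodule.mul_mem_mul (Submodule.mul_mem_mul Submodule.mem_top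
    (Submodule.subset_span ⟨a, rfl⟩)) Submodule.mem_top

theorem top_mul_arrow : (⊤ : Submodule k (PathAlg k s t)) * arrowIdeal k s t
    ≤ arrowIdeal k s t := by
  unfold arrowIdeal
  rw [← mul_assoc, ← mul_assoc]
  exact mul_le_mul' (mul_le_mul' le_top le_rfl) le_rfl

/-- The decomposition of the path algebra. -/
theorem decomp (u : PathAlg k s t) : u ∈ Submodule.span k (Set.range (vx k s t)) ⊔
    Submodule.span k (Set.range (ar k s t)) ⊔ arrowIdeal k s t ^ 2 := by
  set D := Submodule.span k (Set.range (vx k s t)) ⊔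
    Submodule.span k (Set.range (ar k s t)) ⊔ arrowIdeal k s t ^ 2 with hD
  have hv : ∀ v, vx k s t v ∈ D := fun v =>
    Submodule.mem_sup_left (Submodule.mem_sup_left (Submodule.subset_span ⟨v, rfl⟩))
  have ha : Submodule.span k (Set.range (ar k s t)) ≤ D := le_sup_right.trans le_sup_left
  have hgen : ∀ c : V ⊕ A,
      D ≤ D.comap (LinearMap.mulLeft k (RingQuot.mkAlgHom k (PRel k s t) (FreeAlgebra.ι k c))) := by
    intro c
    refine sup_le (sup_le ?_ ?_) ?_
    · rw [Submodule.span_le]
      rintro _ ⟨v, rfl⟩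
      rcases c with w | a
      · show vx k s t w * vx k s t v ∈ D
        by_cases h : w = v
        · subst h
          rw [vx_idem]
          exact hv w
        · rw [vx_orth k s t w v h]
          exact D.zero_mem
      · exact ha (ar_vx k s t v a)
    · rw [Submodule.span_le]
      rintro _ ⟨b, rfl⟩
      rcases c with w | a
      · exact ha (vx_ar k s t w b)
      · show ar k s t a * ar k s t b ∈ D
        refine Submodule.mem_sup_right ?_
        rw [pow_two]
        exact Submodule.mul_mem_mul (ar_mem k s t a) (ar_mem k s t b)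
    · intro r hr
      refine Submodule.mem_sup_right ?_
      have h1 : (⊤ : Submodule k (PathAlg k s t)) * arrowIdeal k s t ^ 2
          ≤ arrowIdeal k s t ^ 2 := by
        rw [pow_two, ← mul_assoc]
        exact mul_le_mul' (top_mul_arrow k s t) le_rfl
      exact h1 (Submodule.mul_mem_mul Submodule.mem_top hr)
  have hall : ∀ (f : FreeAlgebra k (V ⊕ A)) (w : PathAlg k s t), w ∈ D →
      RingQuot.mkAlgHom k (PRel k s t) f * w ∈ D := by
    intro f
    induction f using FreeAlgebra.induction with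
    | grade0 c =>
      intro w hw
      rw [AlgHom.commutes, ← Algebra.smul_def]
      exact D.smul_mem c hw
    | grade1 c => exact fun w hw => hgen c hw
    | mul f g hf hg =>
      intro w hw
      rw [map_mul, mul_assoc]
      exact hf _ (hg w hw)
    | add f g hf hg =>
      intro w hw
      rw [map_add, add_mul]
      exact D.add_mem (hf w hw) (hg w hw)
  obtain ⟨f, rfl⟩ := RingQuot.mkAlgHom_surjective k (PRel k s t) u
  have h1 : (1 : PathAlg k s t) ∈ D := by
    rw [← vx_sum]
    exact D.sum_mem fun v _ => hv v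
  have h2 := hall f 1 h1
  rwa [mul_one] at h2

end gen

theorem ker_le : LinearMap.ker (pi k).toLinearMap ≤ arrowIdeal k src tgt ^ 2 := by
  intro u hu
  obtain ⟨u1, hu1, r, hr, rfl⟩ := Submodule.mem_sup.1 (decomp k src tgt u)
  obtain ⟨u2, hu2, u3, hu3, rfl⟩ := Submodule.mem_sup.1 hu1
  obtain ⟨c, rfl⟩ := (Submodule.mem_span_range_iff_exists_fun k).1 hu2
  obtain ⟨d, rfl⟩ := (Submodule.mem_span_range_iff_exists_fun k).1 hu3
  have hu' : pi k (∑ i, c i • vx k src tgt i + ∑ i, d i • ar k src tgt i + r) = 0 := hu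
  obtain ⟨g1, g2, g3, g4, g5, g6, g7⟩ := arrow_sq_le k hr
  have g1' : (pi k r).x = 0 := g1
  have g2' : (pi k r).y = 0 := g2
  have g3' : (pi k r).z = 0 := g3
  have g4' : (pi k r).a = 0 := g4
  have g5' : (pi k r).b = 0 := g5
  have g6' : (pi k r).d = 0 := g6
  have g7' : (pi k r).e = 0 := g7
  rw [Fin.sum_univ_three, Fin.sum_univ_four] at hu'
  simp only [map_add, map_smul, pi_vx, pi_ar] at hu'
  have e1 := congrArg Lam.x hu'
  have e2 := congrArg Lam.y hu'
  have e3 := congrArg Lam.z hu'
  have e4 := congrArg Lam.a hu'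
  have e5 := congrArg Lam.b hu'
  have e6 := congrArg Lam.d hu'
  have e7 := congrArg Lam.e hu'
  simp [vimg, aimg, ex, ey, ez, ga, gb, gd, ge, Lam.smul_eq, g1', g2', g3', g4', g5', g6', g7']
    at e1 e2 e3 e4 e5 e6 e7
  rw [Fin.sum_univ_three, Fin.sum_univ_four, e1, e2, e3, e4, e5, e6, e7]
  simp only [zero_smul, add_zero, zero_add]
  exact hr

theorem admissible : AdmissibleKernel k src tgt (pi k) :=
  ⟨⟨3, by norm_num, arrow_cube_le k⟩, ker_le k⟩

theorem strong : StronglyConnected src tgt := by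
  have h01 : Relation.ReflTransGen (fun u u' => ∃ a : Fin 4, src a = u ∧ tgt a = u')
      (0 : Fin 3) 1 := Relation.ReflTransGen.single ⟨0, rfl, rfl⟩
  have h12 : Relation.ReflTransGen (fun u u' => ∃ a : Fin 4, src a = u ∧ tgt a = u')
      (1 : Fin 3) 2 := Relation.ReflTransGen.single ⟨2, rfl, rfl⟩
  have h20 : Relation.ReflTransGen (fun u u' => ∃ a : Fin 4, src a = u ∧ tgt a = u')
      (2 : Fin 3) 0 := Relation.ReflTransGen.single ⟨3, rfl, rfl⟩
  intro v w
  fin_cases v <;> fin_cases w
  · exact Relation.ReflTransGen.refl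
  · exact h01
  · exact h01.trans h12
  · exact h12.trans h20
  · exact Relation.ReflTransGen.refl
  · exact h12
  · exact h20
  · exact h20.trans h01
  · exact Relation.ReflTransGen.refl

/-- A scalar as an element of the simple module. -/
def SX.mk (c : k) : SX k := c

theorem simple : IsSimpleModule (Lam k) (SX k) := by
  rw [isSimpleModule_iff]
  refine @IsSimpleOrder.mk _ _ _ ⟨⊥, ⊤, ?_⟩ fun U => ?_
  · intro h
    have h1 : SX.mk k 1 ∈ (⊥ : Submodule (Lam k) (SX k)) := by
      rw [h]
      trivial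
    have h2 : SX.mk k 1 = 0 := (Submodule.mem_bot _).1 h1
    exact one_ne_zero (α := k) h2
  · by_cases hU : U = ⊥
    · exact Or.inl hU
    · right
      obtain ⟨c, hc, hc0⟩ := Submodule.exists_mem_ne_zero_of_ne_bot hU
      rw [eq_top_iff]
      intro d _
      have h1 : ((⟨(show k from d) * (show k from c)⁻¹, 0, 0, 0, 0, 0, 0, 0, 0⟩ : Lam k) • c)
          = d := by
        rw [SX.smul_def]
        show (show k from d) * (show k from c)⁻¹ * (show k from c) = d
        exact inv_mul_cancel_right₀ hc0 _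
      rw [← h1]
      exact U.smul_mem _ hc

end sec

open Pool.Agent.R722.EB in
/-- For every field `k` there are a finite strongly connected quiver, an admissible ideal (the
kernel of a surjection from the path algebra onto an algebra `B`) and a vertex `x` such that the
simple module at `x` has infinite projective dimension and all syzygies from the second on in its
minimal projective resolution do not have `x` in their support. -/
theorem result (k : Type) [Field k] :
    ∃ (V A : Type) (_ : Fintype V) (_ : Fintype A) (s t : A → V) (B : Type) (_ : Ring B)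
      (_ : Algebra k B) (π : PathAlg k s t →ₐ[k] B) (x : V) (Ω : ℕ → ModuleCat.{0} B),
      StronglyConnected s t ∧ Function.Surjective π ∧ AdmissibleKernel k s t π ∧
      IsSimpleModule B (Ω 0) ∧ (∃ m : Ω 0, π (vx k s t x) • m ≠ 0) ∧
      (∀ n, ¬ HasProjectiveDimensionLT (Ω 0) n) ∧
      (∀ n, IsSyzygy (Ω n) (Ω (n + 1))) ∧
      ∀ n, 2 ≤ n → ∀ m : Ω n, π (vx k s t x) • m = 0 := by
  let Om : ℕ → ModuleCat.{0} (Lam k) := fun n => match n with
    | 0 => ModuleCat.of (Lam k) (SX k)
    | 1 => ModuleCat.of (Lam k) (MA k)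
    | _ + 2 => ModuleCat.of (Lam k) (MB k)
  refine ⟨Fin 3, Fin 4, inferInstance, inferInstance, src, tgt, Lam k, inferInstance,
    inferInstance, pi k, 0, Om, strong, pi_surjective k, admissible k, simple k, ?_, SX_pd, ?_, ?_⟩
  · refine ⟨SX.mk k 1, ?_⟩
    rw [pi_vx]
    intro h
    have h1 : (1 : k) * 1 = 0 := h
    rw [one_mul] at h1
    exact one_ne_zero h1
  · intro n
    match n with
    | 0 => exact syz0
    | 1 => exact syz1
    | n + 2 => exact syz2
  · intro n hn
    match n, hn with
    | 0, hn => exact absurd hn (by norm_num)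
    | 1, hn => exact absurd hn (by norm_num)
    | n + 2, _ =>
      intro m
      obtain ⟨h1, h2, h3, h4, h5, h6, h7⟩ := (show MB k from m).2
      have h : (ex k • (show MB k from m)) = 0 := by
        refine Subtype.ext ?_
        show ex k * (show MB k from m).1 = 0
        ext <;> simp [ex, *]
      rw [pi_vx]
      exact h

end Pool.Agent.Results.MP_eb0abf_al.SyzygySupport
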